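import Pool.Agent.H98.RFC.Targets

/-!
# Row REP of rfc_modules: two copies, the influence is a connection probability (helper79)
-/

set_option autoImplicit false

noncomputable section

open Finset
open Pool.Agent.H98.RFC

namespace Pool.Agent.H79.RFC

lemma sg_mem {A : Set Site} {x : Site} (h : x ∈ A) : sg A x = 1 := by
  unfold sg
  rw [if_pos h]

lemma sg_not {A : Set Site} {x : Site} (h : x ∉ A) : sg A x = -1 := by
  unfold sg
  rw [if_neg h]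

lemma sg_congr {A B : Set Site} {x : Site} (h : x ∈ A ↔ x ∈ B) : sg A x = sg B x := by
  by_cases hx : x ∈ A
  · rw [sg_mem hx, sg_mem (h.1 hx)]
  · rw [sg_not hx, sg_not (fun hb => hx (h.2 hb))]

lemma sg_neg {A B : Set Site} {x : Site} (h : x ∈ A ↔ x ∉ B) : sg A x = -sg B x := by
  by_cases hx : x ∈ A
  · rw [sg_mem hx, sg_not (h.1 hx)]
    norm_num
  · have hb : x ∈ B := by
      by_contra hb
      exact hx (h.2 hb)
    rw [sg_not hx, sg_mem hb]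

/-- the pairs with both ends outside the agreement set -/
def Pr (R : ℕ) (Λ U : Finset Site) : Finset (Site × Site) :=
  (prs R Λ).filter fun e => (e.1 ∈ U ∨ e.1 ∉ Λ) ∧ (e.2 ∈ U ∨ e.2 ∉ Λ)

/-- the energy of the agreement set -/
def E0 (R : ℕ) (J h : Site → ℝ) (Λ A U : Finset Site) : ℝ :=
  -(∑ p ∈ prs R Λ, if (p.1 ∈ U ∨ p.1 ∉ Λ) ∨ (p.2 ∈ U ∨ p.2 ∉ Λ) then 0
      else J (p.1 - p.2) * sg A p.1 * sg A p.2) -
    ∑ x ∈ Λ, if x ∈ U then 0 else 2 * h x * sg A x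

section
variable {Λ A U s : Finset Site}

lemma s1 (hd : Disjoint A U) {y : Site} (hy : y ∈ U ∨ y ∉ Λ) :
    sg (↑(A ∪ s) ∪ (↑Λ : Set Site)ᶜ) y = sg (↑s ∪ (↑Λ : Set Site)ᶜ) y := by
  refine sg_congr ?_
  have hAU : y ∈ A → y ∉ U := fun h1 h2 => (Finset.disjoint_left.1 hd) h1 h2
  simp only [Set.mem_union, Set.mem_compl_iff, mem_coe, mem_union]
  tauto

lemma s2 (hA : A ⊆ Λ) (hU : U ⊆ Λ) (hs : s ⊆ U) (hd : Disjoint A U) {y : Site}
    (hy : y ∈ U ∨ y ∉ Λ) :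
    sg (↑(A ∪ (U \ s)) ∪ (∅ : Set Site)) y = -sg (↑s ∪ (↑Λ : Set Site)ᶜ) y := by
  refine sg_neg ?_
  have hAU : y ∈ A → y ∉ U := fun h1 h2 => (Finset.disjoint_left.1 hd) h1 h2
  have h1 : y ∈ A → y ∈ Λ := fun h => hA h
  have h2 : y ∈ U → y ∈ Λ := fun h => hU h
  have h3 : y ∈ s → y ∈ U := fun h => hs h
  simp only [Set.mem_union, Set.mem_compl_iff, mem_coe, mem_union, mem_sdiff,
    Set.mem_empty_iff_false, or_false]
  tauto

lemma s3 (hs : s ⊆ U) {y : Site} (hy : ¬ (y ∈ U ∨ y ∉ Λ)) :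
    sg (↑(A ∪ s) ∪ (↑Λ : Set Site)ᶜ) y = sg (↑A : Set Site) y := by
  refine sg_congr ?_
  have h3 : y ∈ s → y ∈ U := fun h => hs h
  simp only [Set.mem_union, Set.mem_compl_iff, mem_coe, mem_union]
  tauto

lemma s4 {y : Site} (hy : ¬ (y ∈ U ∨ y ∉ Λ)) :
    sg (↑(A ∪ (U \ s)) ∪ (∅ : Set Site)) y = sg (↑A : Set Site) y := by
  refine sg_congr ?_
  simp only [Set.mem_union, mem_coe, mem_union, mem_sdiff,
    Set.mem_empty_iff_false, or_false]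
  tauto

lemma sum_en (R : ℕ) (J h : Site → ℝ) (hA : A ⊆ Λ) (hU : U ⊆ Λ) (hs : s ⊆ U)
    (hd : Disjoint A U) :
    en R J h Λ (↑(A ∪ s) ∪ (↑Λ : Set Site)ᶜ) + en R J h Λ (↑(A ∪ (U \ s)) ∪ (∅ : Set Site)) =
      E0 R J h Λ A U - ∑ e ∈ Pr R Λ U, J (e.1 - e.2) * sg (↑s ∪ (↑Λ : Set Site)ᶜ) e.1 *
        sg (↑s ∪ (↑Λ : Set Site)ᶜ) e.2 := by
  unfold en E0 Pr
  rw [sum_filter]
  have h1 : ∀ p ∈ prs R Λ,
      (J (p.1 - p.2) * sg (↑(A ∪ s) ∪ (↑Λ : Set Site)ᶜ) p.1 *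
          sg (↑(A ∪ s) ∪ (↑Λ : Set Site)ᶜ) p.2) +
        (J (p.1 - p.2) * sg (↑(A ∪ (U \ s)) ∪ (∅ : Set Site)) p.1 *
          sg (↑(A ∪ (U \ s)) ∪ (∅ : Set Site)) p.2) =
      2 * ((if (p.1 ∈ U ∨ p.1 ∉ Λ) ∨ (p.2 ∈ U ∨ p.2 ∉ Λ) then 0
        else J (p.1 - p.2) * sg A p.1 * sg A p.2) +
      (if (p.1 ∈ U ∨ p.1 ∉ Λ) ∧ (p.2 ∈ U ∨ p.2 ∉ Λ) then
        J (p.1 - p.2) * sg (↑s ∪ (↑Λ : Set Site)ᶜ) p.1 * sg (↑s ∪ (↑Λ : Set Site)ᶜ) p.2
        else 0)) := by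
    intro p _
    by_cases ha : p.1 ∈ U ∨ p.1 ∉ Λ
    · by_cases hb : p.2 ∈ U ∨ p.2 ∉ Λ
      · rw [if_pos (Or.inl ha), if_pos ⟨ha, hb⟩, s1 hd ha, s1 hd hb, s2 hA hU hs hd ha,
          s2 hA hU hs hd hb]
        ring
      · rw [if_pos (Or.inl ha), if_neg (fun hc => hb hc.2), s1 hd ha, s3 hs hb,
          s2 hA hU hs hd ha, s4 hb]
        ring
    · by_cases hb : p.2 ∈ U ∨ p.2 ∉ Λ
      · rw [if_pos (Or.inr hb), if_neg (fun hc => ha hc.1), s1 hd hb, s3 hs ha,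
          s2 hA hU hs hd hb, s4 ha]
        ring
      · rw [if_neg (by tauto), if_neg (fun hc => ha hc.1), s3 hs ha, s3 hs hb, s4 ha, s4 hb]
        ring
  have h2 : ∀ x ∈ Λ, h x * sg (↑(A ∪ s) ∪ (↑Λ : Set Site)ᶜ) x +
      h x * sg (↑(A ∪ (U \ s)) ∪ (∅ : Set Site)) x =
      if x ∈ U then 0 else 2 * h x * sg A x := by
    intro x hx
    by_cases ha : x ∈ U
    · rw [if_pos ha, s1 hd (Or.inl ha), s2 hA hU hs hd (Or.inl ha)]
      ring
    · have hn : ¬ (x ∈ U ∨ x ∉ Λ) := by tauto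
      rw [if_neg ha, s3 hs hn, s4 hn]
      ring
  have h3 := sum_congr rfl h1
  have h4 := sum_congr rfl h2
  rw [sum_add_distrib, ← mul_sum, sum_add_distrib] at h3
  rw [sum_add_distrib] at h4
  linarith

lemma wprod (R : ℕ) (J h : Site → ℝ) (T : ℝ) (hT : 0 < T) (hA : A ⊆ Λ) (hU : U ⊆ Λ)
    (hs : s ⊆ U) (hd : Disjoint A U) :
    wt R J h T Λ (↑Λ : Set Site)ᶜ (A ∪ s) * wt R J h T Λ ∅ (A ∪ (U \ s)) =
      Real.exp (-(E0 R J h Λ A U) / T) * ∏ e ∈ Pr R Λ U,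
        Real.exp (J (e.1 - e.2) / T * sg (↑s ∪ (↑Λ : Set Site)ᶜ) e.1 *
          sg (↑s ∪ (↑Λ : Set Site)ᶜ) e.2) := by
  unfold wt
  rw [← Real.exp_add, ← Real.exp_sum, ← Real.exp_add]
  congr 1
  have h1 := sum_en (s := s) R J h hA hU hs hd
  have h2 : ∑ e ∈ Pr R Λ U, J (e.1 - e.2) / T * sg (↑s ∪ (↑Λ : Set Site)ᶜ) e.1 *
      sg (↑s ∪ (↑Λ : Set Site)ᶜ) e.2 = (∑ e ∈ Pr R Λ U, J (e.1 - e.2) *
        sg (↑s ∪ (↑Λ : Set Site)ᶜ) e.1 * sg (↑s ∪ (↑Λ : Set Site)ᶜ) e.2) / T := by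
    rw [sum_div]
    exact sum_congr rfl fun e _ => by ring
  rw [h2, ← add_div, ← add_div]
  congr 1
  linarith

lemma D_eq (hA : A ⊆ Λ) (hU : U ⊆ Λ) (hs : s ⊆ U) (hd : Disjoint A U) :
    ((↑(A ∪ s) ∪ (↑Λ : Set Site)ᶜ) \ ↑(A ∪ (U \ s)) : Set Site) = ↑s ∪ (↑Λ : Set Site)ᶜ := by
  ext y
  have hAU : y ∈ A → y ∉ U := fun h1 h2 => (Finset.disjoint_left.1 hd) h1 h2
  have h1 : y ∈ A → y ∈ Λ := fun h => hA h
  have h2 : y ∈ U → y ∈ Λ := fun h => hU h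
  have h3 : y ∈ s → y ∈ U := fun h => hs h
  simp only [Set.mem_union, Set.mem_compl_iff, mem_coe, mem_union, mem_sdiff, Set.mem_sdiff]
  tauto

end

/-- a site of `Λ` outside `D` is not connected -/
lemma psi_zero (q : Site × Site → ℝ) (P : Finset (Site × Site)) (D : Set Site)
    (Λ : Finset Site) (x : Site) (hx : x ∈ Λ) (hD : x ∉ D) : psi q P D Λ x = 0 := by
  unfold psi
  refine sum_eq_zero fun ω _ => ?_
  rw [if_neg, mul_zero]
  rintro ⟨y, hy, hp⟩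
  rcases Relation.ReflTransGen.cases_head hp with he | ⟨c, hc, -⟩
  · rw [he] at hx
    exact hy hx
  · exact hD hc.2.1

lemma fiber (hESI : T_ESI) (hMG : T_MG) (R : ℕ) (J h : Site → ℝ) (T : ℝ) (hT : 0 < T)
    (Λ : Finset Site) (x : Site) (hx : x ∈ Λ) (A U : Finset Site) (hA : A ⊆ Λ) (hU : U ⊆ Λ)
    (hd : Disjoint A U) :
    ∑ s ∈ U.powerset, wt R J h T Λ (↑Λ : Set Site)ᶜ (A ∪ s) * wt R J h T Λ ∅ (A ∪ (U \ s)) *
      psi (qe J T) (prs R Λ) ((↑(A ∪ s) ∪ (↑Λ : Set Site)ᶜ) \ ↑(A ∪ (U \ s))) Λ x =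
    ∑ s ∈ U.powerset, wt R J h T Λ (↑Λ : Set Site)ᶜ (A ∪ s) * wt R J h T Λ ∅ (A ∪ (U \ s)) *
      ((sg (↑(A ∪ s) ∪ (↑Λ : Set Site)ᶜ) x - sg (↑(A ∪ (U \ s)) ∪ (∅ : Set Site)) x) / 2) := by
  have hq : qe J T = fun e : Site × Site => Real.exp (-(2 * (J (e.1 - e.2) / T))) := by
    funext e
    unfold qe
    congr 1
    ring
  by_cases hxU : x ∈ U
  · have hE := hESI U Λ (Pr R Λ U) (fun e => J (e.1 - e.2) / T) x hU hxU
      (fun e he => (mem_filter.1 he).2)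
    have h1 : ∀ s ∈ U.powerset,
        wt R J h T Λ (↑Λ : Set Site)ᶜ (A ∪ s) * wt R J h T Λ ∅ (A ∪ (U \ s)) *
        psi (qe J T) (prs R Λ) ((↑(A ∪ s) ∪ (↑Λ : Set Site)ᶜ) \ ↑(A ∪ (U \ s))) Λ x =
        Real.exp (-(E0 R J h Λ A U) / T) * (psi (fun e : Site × Site =>
          Real.exp (-(2 * (J (e.1 - e.2) / T)))) (Pr R Λ U) (↑s ∪ (↑Λ)ᶜ) Λ x *
          ∏ e ∈ Pr R Λ U, Real.exp (J (e.1 - e.2) / T * sg (↑s ∪ (↑Λ : Set Site)ᶜ) e.1 *
          sg (↑s ∪ (↑Λ : Set Site)ᶜ) e.2)) := by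
      intro s hs
      rw [mem_powerset] at hs
      rw [wprod R J h T hT hA hU hs hd, D_eq hA hU hs hd, hq]
      rw [hMG _ (prs R Λ) (Pr R Λ U) (↑s ∪ (↑Λ)ᶜ) Λ x (filter_subset _ _) ?_]
      · ring
      · intro e he h1 h2
        unfold Pr
        rw [mem_filter]
        refine ⟨he, ?_, ?_⟩
        · rcases h1 with h1 | h1
          · exact Or.inl (hs h1)
          · exact Or.inr h1
        · rcases h2 with h2 | h2
          · exact Or.inl (hs h2)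
          · exact Or.inr h2
    have h2 : ∀ s ∈ U.powerset,
        wt R J h T Λ (↑Λ : Set Site)ᶜ (A ∪ s) * wt R J h T Λ ∅ (A ∪ (U \ s)) *
        ((sg (↑(A ∪ s) ∪ (↑Λ : Set Site)ᶜ) x - sg (↑(A ∪ (U \ s)) ∪ (∅ : Set Site)) x) / 2) =
        Real.exp (-(E0 R J h Λ A U) / T) * (sg (↑s ∪ (↑Λ : Set Site)ᶜ) x *
          ∏ e ∈ Pr R Λ U, Real.exp (J (e.1 - e.2) / T * sg (↑s ∪ (↑Λ : Set Site)ᶜ) e.1 *
          sg (↑s ∪ (↑Λ : Set Site)ᶜ) e.2)) := by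
      intro s hs
      rw [mem_powerset] at hs
      rw [wprod R J h T hT hA hU hs hd, s1 hd (Or.inl hxU), s2 hA hU hs hd (Or.inl hxU)]
      ring
    rw [sum_congr rfl h1, sum_congr rfl h2, ← mul_sum, ← mul_sum, ← hE]
  · have hn : ¬ (x ∈ U ∨ x ∉ Λ) := by tauto
    rw [sum_eq_zero, sum_eq_zero]
    · intro s hs
      rw [mem_powerset] at hs
      rw [s3 hs hn, s4 hn, sub_self, zero_div, mul_zero]
    · intro s hs
      rw [mem_powerset] at hs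
      rw [D_eq hA hU hs hd, psi_zero, mul_zero]
      · exact hx
      · rintro (h1 | h1)
        · exact hxU (hs h1)
        · exact h1 hx

lemma fib (Λ A U : Finset Site) (hA : A ⊆ Λ) (hU : U ⊆ Λ) (hd : Disjoint A U)
    (F : Finset Site → Finset Site → ℝ) :
    ∑ p ∈ (Λ.powerset ×ˢ Λ.powerset).filter (fun p => (p.1 ∩ p.2, symmDiff p.1 p.2) = (A, U)),
      F p.1 p.2 = ∑ s ∈ U.powerset, F (A ∪ s) (A ∪ (U \ s)) := by
  have hdd : ∀ y, y ∈ A → y ∉ U := fun y h1 h2 => (Finset.disjoint_left.1 hd) h1 h2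
  refine sum_nbij' (fun p => p.1 \ p.2) (fun s => (A ∪ s, A ∪ (U \ s))) ?_ ?_ ?_ ?_ ?_
  · rintro ⟨S, S'⟩ hp
    rw [mem_filter, mem_product, Prod.mk.injEq] at hp
    obtain ⟨-, -, h2⟩ := hp
    rw [mem_powerset]
    intro y hy
    simp only [mem_sdiff] at hy
    simp only at h2
    rw [← h2, mem_symmDiff]
    exact Or.inl hy
  · intro s hs
    rw [mem_powerset] at hs
    rw [mem_filter, mem_product, Prod.mk.injEq]
    simp only [mem_powerset]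
    refine ⟨⟨union_subset hA (hs.trans hU), union_subset hA (sdiff_subset.trans hU)⟩, ?_, ?_⟩
    · ext y
      simp only [mem_inter, mem_union, mem_sdiff]
      tauto
    · ext y
      have h1 := hdd y
      have h2 : y ∈ s → y ∈ U := fun h => hs h
      simp only [mem_symmDiff, mem_union, mem_sdiff]
      tauto
  · rintro ⟨S, S'⟩ hp
    rw [mem_filter, mem_product, Prod.mk.injEq] at hp
    obtain ⟨-, h1, h2⟩ := hp
    simp only at h1 h2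
    subst h1
    subst h2
    simp only [Prod.mk.injEq]
    constructor
    · ext y
      simp only [mem_inter, mem_union, mem_sdiff]
      tauto
    · ext y
      simp only [mem_inter, mem_union, mem_sdiff, mem_symmDiff]
      tauto
  · intro s hs
    rw [mem_powerset] at hs
    ext y
    have h1 := hdd y
    have h2 : y ∈ s → y ∈ U := fun h => hs h
    simp only [mem_union, mem_sdiff]
    tauto
  · rintro ⟨S, S'⟩ hp
    rw [mem_filter, mem_product, Prod.mk.injEq] at hp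
    obtain ⟨-, h1, h2⟩ := hp
    simp only at h1 h2
    subst h1
    subst h2
    simp only
    congr 1
    · ext y
      simp only [mem_inter, mem_union, mem_sdiff]
      tauto
    · ext y
      simp only [mem_inter, mem_union, mem_sdiff, mem_symmDiff]
      tauto

lemma reindex (Λ : Finset Site) (F G : Finset Site → Finset Site → ℝ)
    (hFG : ∀ A U : Finset Site, A ⊆ Λ → U ⊆ Λ → Disjoint A U →
      ∑ s ∈ U.powerset, F (A ∪ s) (A ∪ (U \ s)) = ∑ s ∈ U.powerset, G (A ∪ s) (A ∪ (U \ s))) :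
    ∑ S ∈ Λ.powerset, ∑ S' ∈ Λ.powerset, F S S' = ∑ S ∈ Λ.powerset, ∑ S' ∈ Λ.powerset, G S S' := by
  rw [← sum_product', ← sum_product']
  set g : Finset Site × Finset Site → Finset Site × Finset Site :=
    fun p => (p.1 ∩ p.2, symmDiff p.1 p.2) with hg
  set T := (Λ.powerset ×ˢ Λ.powerset).image g with hT
  have hm : ∀ p ∈ Λ.powerset ×ˢ Λ.powerset, g p ∈ T := fun p hp => mem_image_of_mem g hp
  rw [← sum_fiberwise_of_maps_to hm, ← sum_fiberwise_of_maps_to hm]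
  refine sum_congr rfl ?_
  rintro ⟨A, U⟩ hAU
  rw [hT, mem_image] at hAU
  obtain ⟨⟨S, S'⟩, hp, he⟩ := hAU
  rw [mem_product] at hp
  simp only [mem_powerset] at hp
  obtain ⟨hp1, hp2⟩ := hp
  simp only [hg, Prod.mk.injEq] at he
  obtain ⟨h1, h2⟩ := he
  have hA : A ⊆ Λ := by
    rw [← h1]
    exact inter_subset_left.trans hp1
  have hU : U ⊆ Λ := by
    rw [← h2]
    intro y hy
    rw [mem_symmDiff] at hy
    rcases hy with hy | hy
    · exact hp1 hy.1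
    · exact hp2 hy.1
  have hd : Disjoint A U := by
    rw [Finset.disjoint_left]
    intro y hy hy'
    rw [← h1, mem_inter] at hy
    rw [← h2, mem_symmDiff] at hy'
    tauto
  have e1 := fib Λ A U hA hU hd F
  have e2 := fib Λ A U hA hU hd G
  rw [e1, e2]
  exact hFG A U hA hU hd

theorem pf_REP (hESI : T_ESI) (hMG : T_MG) : T_REP := by
  intro R J _ h T hT Λ x hx
  have hZ : ∀ B : Set Site, Zf R J h T Λ B ≠ 0 := by
    intro B
    have : 0 < Zf R J h T Λ B := by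
      unfold Zf
      refine sum_pos (fun S _ => ?_) ⟨∅, empty_mem_powerset Λ⟩
      unfold wt
      exact Real.exp_pos _
    exact this.ne'
  have h1 := reindex Λ
    (fun S S' => wt R J h T Λ (↑Λ : Set Site)ᶜ S * wt R J h T Λ ∅ S' *
      psi (qe J T) (prs R Λ) ((↑S ∪ (↑Λ : Set Site)ᶜ) \ ↑S') Λ x)
    (fun S S' => wt R J h T Λ (↑Λ : Set Site)ᶜ S * wt R J h T Λ ∅ S' *
      ((sg (↑S ∪ (↑Λ : Set Site)ᶜ) x - sg (↑S' ∪ (∅ : Set Site)) x) / 2))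
    (fun A U hA hU hd => fiber hESI hMG R J h T hT Λ x hx A U hA hU hd)
  rw [h1]
  have h2 : Zf R J h T Λ (↑Λ : Set Site)ᶜ * Zf R J h T Λ ∅ * inf1 R J h T Λ x =
      ((∑ S ∈ Λ.powerset, wt R J h T Λ (↑Λ : Set Site)ᶜ S * sg (↑S ∪ (↑Λ : Set Site)ᶜ) x) *
        Zf R J h T Λ ∅ - Zf R J h T Λ (↑Λ : Set Site)ᶜ *
        (∑ S ∈ Λ.powerset, wt R J h T Λ ∅ S * sg (↑S ∪ (∅ : Set Site)) x)) / 2 := by
    unfold inf1 mg
    have z1 := hZ (↑Λ : Set Site)ᶜ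
    have z2 := hZ ∅
    field_simp
  rw [h2]
  conv_rhs => unfold Zf
  rw [sum_mul_sum, sum_mul_sum, ← sum_sub_distrib, sum_div]
  refine sum_congr rfl fun S _ => ?_
  rw [← sum_sub_distrib, sum_div]
  refine sum_congr rfl fun S' _ => ?_
  ring

end Pool.Agent.H79.RFC
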