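import Pool.Agent.H98.RFC.Targets

/-!
# Row IN of rfc_modules: the finite volume inequality for `T ≥ 0` (helper79)
-/

set_option autoImplicit false

noncomputable section

open MeasureTheory ProbabilityTheory Filter Topology
open Pool.Agent.H98.RFC

namespace Pool.Agent.H79.RFC

lemma zero_mem_box (L : ℕ) : (0 : Site) ∈ box L := by
  unfold box
  rw [Finset.mem_product, Finset.mem_Icc, Finset.mem_Icc]
  simp

lemma mag_lim (hLM : T_LM) (hMEA : T_MEA) (R : ℕ) (J : Site → ℝ) (hJ : IsCoupling R J) (ε : ℝ)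
    (L : ℕ) : Tendsto (fun T : ℝ => mag R J T ε L) (𝓝[>] 0) (𝓝 (mag R J 0 ε L)) := by
  haveI : IsProbabilityMeasure gam := by
    unfold gam
    infer_instance
  unfold mag
  refine tendsto_integral_filter_of_dominated_convergence (fun _ => (1 : ℝ)) ?_ ?_ ?_ ?_
  · filter_upwards [self_mem_nhdsWithin] with T hT
    exact (hMEA R J hJ T ε (le_of_lt hT) (box L) 0 (zero_mem_box L)).1.aestronglyMeasurable
  · filter_upwards [self_mem_nhdsWithin] with T hT
    refine Eventually.of_forall fun η => ?_
    rw [Real.norm_eq_abs]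
    exact (hMEA R J hJ T ε (le_of_lt hT) (box L) 0 (zero_mem_box L)).2 η
  · exact integrable_const _
  · exact Eventually.of_forall fun η => hLM R J (fun x => ε * η x) (box L) 0

theorem pf_IN (hIN1 : T_IN1) (hLM : T_LM) (hMEA : T_MEA) : T_IN := by
  intro R J hJ T ε hT r n L hL
  rcases hT.eq_or_lt with h0 | h0
  · subst h0
    refine le_of_tendsto_of_tendsto (mag_lim hLM hMEA R J hJ ε L)
      (((mag_lim hLM hMEA R J hJ ε r).pow (n + 1)).const_mul _) ?_
    filter_upwards [self_mem_nhdsWithin] with T hT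
    exact hIN1 R J hJ T ε hT r n L hL
  · exact hIN1 R J hJ T ε h0 r n L hL

end Pool.Agent.H79.RFC
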